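import Pool.Agent.TH603.EL.Low

/-! EL-C: the Hesse relation (second prover). -/

set_option autoImplicit false

namespace Pool.Agent.TH740.EL

open MvPolynomial Pool.Agent.TH603.EL

variable {F : Type} [Field F]

theorem cf_tz_mul (x : HR F) (b a : ℝ) (k l i j : ℤ) :
    cf (tz F b k l * x) a i j = cf x (a - b) (i - k) (j - l) := by
  unfold cf tz
  conv_lhs => rw [show a = (a - b) + b by ring]
  rw [HahnSeries.coeff_single_mul_add, AddMonoidAlgebra.coeff_single_mul_apply, one_mul]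
  congr 1
  ext <;> simp <;> ring

theorem lau_mul_ne {p r : Lau F} {m : ℤ × ℤ} (h : (p * r).coeff m ≠ 0) :
    ∃ m1 m2, m1 + m2 = m ∧ p.coeff m1 ≠ 0 ∧ r.coeff m2 ≠ 0 := by
  classical
  by_contra hc
  push Not at hc
  apply h
  rw [AddMonoidAlgebra.coeff_mul]
  apply Finset.sum_eq_zero
  intro m1 hm1
  apply Finset.sum_eq_zero
  intro m2 hm2
  dsimp only
  split_ifs with h3
  · rw [Finsupp.mem_support_iff] at hm1 hm2
    exact absurd (hc m1 m2 h3 hm1) hm2
  · rfl

theorem cf_mul_ne {x y : HR F} {a : ℝ} {i j : ℤ} (h : cf (x * y) a i j ≠ 0) :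
    ∃ u v i1 i2 j1 j2, u + v = a ∧ i1 + i2 = i ∧ j1 + j2 = j ∧ cf x u i1 j1 ≠ 0 ∧ cf y v i2 j2 ≠ 0 := by
  unfold cf at h
  rw [HahnSeries.coeff_mul, AddMonoidAlgebra.coeff_sum, Finsupp.finsetSum_apply] at h
  obtain ⟨⟨u, v⟩, huv, h1⟩ := Finset.exists_ne_zero_of_sum_ne_zero h
  rw [Finset.mem_antidiagonal] at huv
  obtain ⟨⟨i1, j1⟩, ⟨i2, j2⟩, h2, h3, h4⟩ := lau_mul_ne h1
  rw [Prod.mk_add_mk, Prod.mk.injEq] at h2
  exact ⟨u, v, i1, i2, j1, j2, huv.2.2, h2.1, h2.2, h3, h4⟩

/-- the exponents of `z` are `l` modulo 3, no `Y` -/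
def Exq (x : HR F) (l : ZMod 3) : Prop := ∀ a i j, cf x a i j ≠ 0 → j = 0 ∧ (i : ZMod 3) = l

theorem Exq.mul {x y : HR F} {l k : ZMod 3} (hx : Exq x l) (hy : Exq y k) : Exq (x * y) (l + k) := by
  intro a i j h
  obtain ⟨u, v, i1, i2, j1, j2, -, rfl, rfl, h1, h2⟩ := cf_mul_ne h
  obtain ⟨e1, e2⟩ := hx _ _ _ h1
  obtain ⟨e3, e4⟩ := hy _ _ _ h2
  subst e1 e3
  refine ⟨rfl, ?_⟩
  push_cast
  rw [e2, e4]

theorem cf_add (x y : HR F) (a : ℝ) (i j : ℤ) : cf (x + y) a i j = cf x a i j + cf y a i j := by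
  simp [cf]

theorem cf_sub (x y : HR F) (a : ℝ) (i j : ℤ) : cf (x - y) a i j = cf x a i j - cf y a i j := by
  simp [cf]

theorem Exq.add {x y : HR F} {l : ZMod 3} (hx : Exq x l) (hy : Exq y l) : Exq (x + y) l := by
  intro a i j h
  rw [cf_add] at h
  by_cases h1 : cf x a i j = 0
  · rw [h1, zero_add] at h
    exact hy _ _ _ h
  · exact hx _ _ _ h1

theorem Exq.sub {x y : HR F} {l : ZMod 3} (hx : Exq x l) (hy : Exq y l) : Exq (x - y) l := by
  intro a i j h
  rw [cf_sub] at h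
  by_cases h1 : cf x a i j = 0
  · rw [h1, zero_sub, neg_ne_zero] at h
    exact hy _ _ _ h
  · exact hx _ _ _ h1

theorem exq_incl (c : HK F) : Exq (incl c) 0 := by
  intro a i j h
  rw [cf_incl] at h
  split_ifs at h with h1
  · exact ⟨h1.2, by rw [h1.1]; rfl⟩
  · exact absurd rfl h

theorem exq_theta (τ : ℝ) (l : ZMod 3) : Exq (theta F τ l) l := by
  intro a i j h
  rw [cf_theta] at h
  split_ifs at h with h1
  · exact ⟨h1.1, h1.2.1⟩
  · exact absurd rfl h

theorem theta_succ (τ : ℝ) (l : ZMod 3) :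
    theta F (τ + 1) l = tz F (-τ) (-1) 0 * theta F τ (l + 1) := by
  apply cf_ext
  intro a i j
  rw [cf_tz_mul, cf_theta, cf_theta]
  have h1 : ex τ (i - -1) = a - -τ ↔ ex (τ + 1) i = a := by
    unfold ex
    rw [sub_neg_eq_add, sub_neg_eq_add, ee_succ]
    push_cast
    constructor <;> intro h <;> linarith
  have h2 : ((i - -1 : ℤ) : ZMod 3) = l + 1 ↔ (i : ZMod 3) = l := by
    push_cast
    constructor
    · intro h
      linear_combination h
    · intro h
      rw [h]
      ring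
  have h3 : j - 0 = 0 ↔ j = 0 := by rw [sub_zero]
  simp only [h1, h2, h3]

theorem three_l (l : ZMod 3) : l + l + l = 0 := by
  revert l; decide

/-- the `z ^ 0` part -/
noncomputable def cz (x : HR F) : HK F :=
  x.map ({ toFun := fun p => p.coeff (0, 0), map_zero' := by simp } : ZeroHom (Lau F) F)

theorem cz_coeff (x : HR F) (a : ℝ) : (cz x).coeff a = cf x a 0 0 := rfl

theorem cf_incl_mul_zero (c : HK F) (x : HR F) : cz (incl c * x) = c * cz x := by
  ext a
  rw [cz_coeff, cf, HahnSeries.coeff_mul_right' x.isPWO_support (x := c) (y := cz x) ?_]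
  · rw [HahnSeries.coeff_mul_left' (s := c.support) c.isPWO_support ?_]
    · rw [AddMonoidAlgebra.coeff_sum, Finsupp.finsetSum_apply]
      refine Finset.sum_congr rfl fun p _ => ?_
      have h1 : (incl c).coeff p.1 = AddMonoidAlgebra.single (0, 0) (c.coeff p.1) := by
        ext ⟨i, j⟩
        have := cf_incl c p.1 i j
        unfold cf at this
        rw [this, AddMonoidAlgebra.coeff_single, Finsupp.single_apply]
        simp only [Prod.mk.injEq, eq_comm]
      rw [h1, AddMonoidAlgebra.coeff_single_mul_apply]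
      simp [cz_coeff, cf]
    · intro b hb
      rw [HahnSeries.mem_support] at hb ⊢
      intro h
      apply hb
      ext ⟨i, j⟩
      have := cf_incl c b i j
      unfold cf at this
      rw [this, h]
      simp
  · intro b hb
    rw [HahnSeries.mem_support] at hb ⊢
    intro h
    apply hb
    rw [cz_coeff, cf, h]
    simp

/-- the two invariant cubic forms -/
noncomputable def UU (F : Type) [Field F] : MvPolynomial (ZMod 3) (HK F) := X 0 * X 1 * X 2
noncomputable def SS (F : Type) [Field F] : MvPolynomial (ZMod 3) (HK F) := X 0 ^ 3 + X 1 ^ 3 + X 2 ^ 3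

theorem ev_UU (Z : ZMod 3 → HR F) : ev Z (UU F) = Z 0 * Z 1 * Z 2 := by
  simp [UU, ev]

theorem ev_SS (Z : ZMod 3 → HR F) : ev Z (SS F) = Z 0 ^ 3 + Z 1 ^ 3 + Z 2 ^ 3 := by
  simp [SS, ev]

theorem ev_hes (Z : ZMod 3 → HR F) (A : HK F) :
    ev Z (hes A) = ev Z (UU F) + incl A * ev Z (SS F) := by
  rw [ev_UU, ev_SS]
  simp [hes, ev]

theorem exq_UU (τ : ℝ) : Exq (ev (theta F τ) (UU F)) 0 := by
  rw [ev_UU]
  have := ((exq_theta (F := F) τ 0).mul (exq_theta τ 1)).mul (exq_theta τ 2)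
  exact this

theorem exq_SS (τ : ℝ) : Exq (ev (theta F τ) (SS F)) 0 := by
  rw [ev_SS]
  have h : ∀ l : ZMod 3, Exq (theta F τ l ^ 3) 0 := by
    intro l
    have h1 := ((exq_theta (F := F) τ l).mul (exq_theta τ l)).mul (exq_theta τ l)
    rw [three_l] at h1
    rw [pow_succ, pow_two]
    exact h1
  exact ((h 0).add (h 1)).add (h 2)

theorem th2 : (2 : ZMod 3) + 1 = 0 := by decide
theorem th1 : (1 : ZMod 3) + 1 = 2 := by decide

theorem succ_UU (τ : ℝ) : ev (theta F (τ + 1)) (UU F) = tz F (-τ) (-1) 0 ^ 3 * ev (theta F τ) (UU F) := by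
  rw [ev_UU, ev_UU, theta_succ, theta_succ, theta_succ, th2, th1, zero_add]
  ring

theorem succ_SS (τ : ℝ) : ev (theta F (τ + 1)) (SS F) = tz F (-τ) (-1) 0 ^ 3 * ev (theta F τ) (SS F) := by
  rw [ev_SS, ev_SS, theta_succ, theta_succ, theta_succ, th2, th1, zero_add]
  ring

theorem tz_mul (a b : ℝ) (i j k l : ℤ) : tz F a i j * tz F b k l = tz F (a + b) (i + k) (j + l) := by
  simp [tz]

theorem tz_cube (τ : ℝ) : tz F (-τ) (-1) 0 ^ 3 = tz F (-(3 * τ)) (-3) 0 := by
  rw [pow_succ, pow_two, tz_mul, tz_mul]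
  congr 1
  ring

/-- a combination of the cubic forms with exponents in `3 ℤ` and no `z ^ 0` part vanishes -/
theorem comb_zero (hscal : ∀ (g : MvPolynomial (ZMod 3) (HK F)) (τ s a : ℝ) (i j : ℤ),
    cf (ev (theta F (τ + s)) g) (a + s * i) i j = cf (ev (theta F τ) g) a i j)
    (τ : ℝ) (c d : HK F) (h0 : cz (ev (theta F τ) (C c * UU F - C d * SS F)) = 0) :
    ev (theta F τ) (C c * UU F - C d * SS F) = 0 := by
  set G := C c * UU F - C d * SS F with hG
  have hev : ∀ Z : ZMod 3 → HR F, ev Z G = incl c * ev Z (UU F) - incl d * ev Z (SS F) := by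
    intro Z
    rw [hG, map_sub, map_mul, map_mul, ev_C, ev_C]
  have hsucc : ev (theta F (τ + 1)) G = tz F (-(3 * τ)) (-3) 0 * ev (theta F τ) G := by
    rw [hev, hev, succ_UU, succ_SS, tz_cube]
    ring
  have hexq : Exq (ev (theta F τ) G) 0 := by
    rw [hev]
    have h1 := (exq_incl c).mul (exq_UU τ)
    have h2 := (exq_incl d).mul (exq_SS τ)
    rw [add_zero] at h1 h2
    exact h1.sub h2
  have hrec : ∀ (a : ℝ) (i j : ℤ),
      cf (ev (theta F τ) G) a i j = cf (ev (theta F τ) G) (a + i + 3 * τ) (i + 3) j := by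
    intro a i j
    have h1 := hscal G τ 1 a i j
    rw [hsucc, cf_tz_mul] at h1
    rw [← h1]
    congr 1
    · ring
    · ring
  have hup : ∀ k : ℕ, ∀ a : ℝ, cf (ev (theta F τ) G) a (3 * k) 0 = 0 := by
    intro k
    induction k with
    | zero =>
      intro a
      have := congrArg (fun y : HK F => y.coeff a) h0
      simpa [cz_coeff] using this
    | succ k ih =>
      intro a
      have h1 := hrec (a - 3 * k - 3 * τ) (3 * k) 0
      rw [ih] at h1
      rw [show ((3 * (k + 1 : ℕ) : ℤ)) = 3 * k + 3 by push_cast; ring]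
      rw [h1]
      congr 1
      push_cast
      ring
  have hdown : ∀ k : ℕ, ∀ a : ℝ, cf (ev (theta F τ) G) a (-(3 * k)) 0 = 0 := by
    intro k
    induction k with
    | zero =>
      intro a
      have := hup 0 a
      simpa using this
    | succ k ih =>
      intro a
      have h1 := hrec a (-(3 * (k + 1 : ℕ))) 0
      rw [h1, show (-(3 * (k + 1 : ℕ)) + 3 : ℤ) = -(3 * k) by push_cast; ring]
      exact ih _
  apply cf_ext
  intro a i j
  have hz : cf (0 : HR F) a i j = 0 := by simp [cf]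
  rw [hz]
  by_contra hne
  obtain ⟨rfl, h1⟩ := hexq a i j hne
  have h2 : (3 : ℤ) ∣ i := (ZMod.intCast_zmod_eq_zero_iff_dvd i 3).1 h1
  obtain ⟨k, rfl⟩ := h2
  rcases le_or_gt 0 k with hk | hk
  · obtain ⟨n, rfl⟩ := Int.eq_ofNat_of_zero_le hk
    exact hne (hup n a)
  · obtain ⟨n, hn⟩ := Int.eq_ofNat_of_zero_le (neg_nonneg.2 hk.le)
    have h3 : 3 * k = -(3 * (n : ℤ)) := by rw [← hn]; ring
    rw [h3] at hne
    exact hne (hdown n a)

/-! ### radius zero -/

theorem ee_eq_zero {i : ℤ} (h : ee i = 0) : i = 0 ∨ i = 1 := by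
  have h1 := two_ee i
  rw [h, mul_zero] at h1
  rcases mul_eq_zero.1 h1.symm with h2 | h2
  · exact Or.inl h2
  · exact Or.inr (by omega)

theorem ex_zero (i : ℤ) : ex 0 i = (ee i : ℝ) := by simp [ex]

theorem coeff_theta00 : (theta F 0 0).coeff 0 = AddMonoidAlgebra.single (0, 0) 1 := by
  ext ⟨i, j⟩
  have h := cf_theta (F := F) 0 0 0 i j
  unfold cf at h
  rw [h, AddMonoidAlgebra.coeff_single, Finsupp.single_apply, ex_zero]
  have h1 : (j = 0 ∧ (i : ZMod 3) = 0 ∧ ((ee i : ℤ) : ℝ) = 0) ↔ ((0 : ℤ), (0 : ℤ)) = (i, j) := by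
    rw [Prod.mk.injEq]
    constructor
    · rintro ⟨rfl, h2, h3⟩
      rcases ee_eq_zero (by exact_mod_cast h3) with rfl | rfl
      · exact ⟨rfl, rfl⟩
      · exact absurd h2 (by decide)
    · rintro ⟨rfl, rfl⟩
      exact ⟨rfl, by simp, by simp [ee]⟩
  simp only [h1]

theorem coeff_theta01 : (theta F 0 1).coeff 0 = AddMonoidAlgebra.single (1, 0) 1 := by
  ext ⟨i, j⟩
  have h := cf_theta (F := F) 0 1 0 i j
  unfold cf at h
  rw [h, AddMonoidAlgebra.coeff_single, Finsupp.single_apply, ex_zero]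
  have h1 : (j = 0 ∧ (i : ZMod 3) = 1 ∧ ((ee i : ℤ) : ℝ) = 0) ↔ ((1 : ℤ), (0 : ℤ)) = (i, j) := by
    rw [Prod.mk.injEq]
    constructor
    · rintro ⟨rfl, h2, h3⟩
      rcases ee_eq_zero (by exact_mod_cast h3) with rfl | rfl
      · exact absurd h2 (by decide)
      · exact ⟨rfl, rfl⟩
    · rintro ⟨rfl, rfl⟩
      exact ⟨rfl, by simp, by simp [ee]⟩
  simp only [h1]

theorem low_theta02 : Low (theta F 0 2) 1 := by
  intro a ha
  ext ⟨i, j⟩
  have h := cf_theta (F := F) 0 2 a i j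
  unfold cf at h
  rw [h, if_neg]
  · simp
  · rintro ⟨-, h2, h3⟩
    rw [ex_zero] at h3
    have h4 := ex_nonneg (le_refl (0 : ℝ)) zero_le_one i
    rw [ex_zero] at h4
    have h5 : ee i < 1 := by exact_mod_cast (h3 ▸ ha : ((ee i : ℤ) : ℝ) < 1)
    have h6 : 0 ≤ ee i := by exact_mod_cast h4
    rcases ee_eq_zero (by omega : ee i = 0) with rfl | rfl
    · exact absurd h2 (by decide)
    · exact absurd h2 (by decide)

theorem low_U0 : Low (ev (theta F 0) (UU F)) 1 := by
  rw [ev_UU]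
  have h1 := ((low_theta (F := F) le_rfl zero_le_one 0).mul (low_theta le_rfl zero_le_one 1)).mul
    (low_theta02 (F := F))
  rw [zero_add, zero_add] at h1
  exact h1

theorem low_S0 : Low (ev (theta F 0) (SS F)) 0 := by
  rw [ev_SS]
  exact (((low_theta le_rfl zero_le_one 0).pow_zero' 3).add ((low_theta le_rfl zero_le_one 1).pow_zero' 3)).add
    ((low_theta le_rfl zero_le_one 2).pow_zero' 3)

theorem coeff_S0 : cf (ev (theta F 0) (SS F)) 0 0 0 = 1 := by
  rw [ev_SS, cf_add, cf_add]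
  have h0 := (low_theta (F := F) le_rfl zero_le_one 0).coeff_pow 3
  have h1 := (low_theta (F := F) le_rfl zero_le_one 1).coeff_pow 3
  have h2 := (low_theta (F := F) le_rfl zero_le_one 2).coeff_pow 3
  rw [mul_zero] at h0 h1 h2
  unfold cf
  rw [h0, h1, h2, low_theta02 0 one_pos, coeff_theta00, coeff_theta01]
  simp [AddMonoidAlgebra.single_pow]

theorem exists_hesse_of (hscal : ∀ (g : MvPolynomial (ZMod 3) (HK F)) (τ s a : ℝ) (i j : ℤ),
    cf (ev (theta F (τ + s)) g) (a + s * i) i j = cf (ev (theta F τ) g) a i j) (τ : ℝ) :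
    ∃ A : HK F, Low A 1 ∧ ev (theta F τ) (hes A) = 0 := by
  set ku : HK F := cz (ev (theta F τ) (UU F)) with hku
  set ks : HK F := cz (ev (theta F τ) (SS F)) with hks
  have hz : ∀ g : MvPolynomial (ZMod 3) (HK F), cz (ev (theta F τ) g) = cz (ev (theta F 0) g) := by
    intro g
    ext a
    have h1 := hscal g 0 τ a 0 0
    simpa [cz_coeff] using h1
  have hlu : Low ku 1 := by
    rw [hku, hz]
    intro a ha
    rw [cz_coeff, cf, low_U0 a ha]
    simp
  have hls : Low ks 0 := by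
    rw [hks, hz]
    intro a ha
    rw [cz_coeff, cf, low_S0 a ha]
    simp
  have hs1 : ks.coeff 0 = 1 := by
    rw [hks, hz, cz_coeff, coeff_S0]
  have hs0 : ks ≠ 0 := by
    intro h
    rw [h] at hs1
    simp at hs1
  have h0 : ev (theta F τ) (C ks * UU F - C ku * SS F) = 0 := by
    apply comb_zero hscal
    rw [map_sub, map_mul, map_mul, ev_C, ev_C]
    have h1 : ∀ x y : HR F, cz (x - y) = cz x - cz y := by
      intro x y
      ext a
      rw [HahnSeries.coeff_sub, cz_coeff, cz_coeff, cz_coeff, cf_sub]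
    rw [h1, cf_incl_mul_zero, cf_incl_mul_zero, ← hku, ← hks]
    ring
  refine ⟨-ku * ks⁻¹, ?_, ?_⟩
  · -- the order of `A`
    set A := -ku * ks⁻¹ with hA
    have hAk : A * ks = -ku := by
      rw [hA, mul_assoc, inv_mul_cancel₀ hs0, mul_one]
    by_contra hc
    have hA0 : A ≠ 0 := by
      intro h
      apply hc
      rw [h]
      exact low_zero 1
    have hAo : Low A A.order := fun a ha => HahnSeries.coeff_eq_zero_of_lt_order ha
    have hlt : A.order < 1 := by
      by_contra hge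
      exact hc (hAo.mono (not_lt.1 hge))
    have h2 := hAo.coeff_mul hls
    rw [add_zero, hAk, hs1, mul_one, hlu.neg _ hlt] at h2
    exact hA0 (HahnSeries.coeff_order_eq_zero.1 h2.symm)
  · rw [ev_hes]
    rw [map_sub, map_mul, map_mul, ev_C, ev_C] at h0
    have h1 : incl (ks⁻¹) * incl ks = (1 : HR F) := by
      rw [← map_mul, inv_mul_cancel₀ hs0, map_one]
    rw [map_mul, map_neg]
    linear_combination incl (ks⁻¹) * h0 - ev (theta F τ) (UU F) * h1

end Pool.Agent.TH740.EL
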